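import Mathlib

/-! Minors, P-matrices and strict GKK matrices. -/

namespace Pool.Agent.Lib.MP_25f4f2_al

/-- The submatrix `A(α, β)` with rows indexed by `α` and columns indexed by `β`, both in
increasing order; `k` is the common cardinality of `α` and `β`. -/
def subm {n k : ℕ} (A : Matrix (Fin n) (Fin n) ℂ) (α β : Finset (Fin n))
    (hα : α.card = k) (hβ : β.card = k) : Matrix (Fin k) (Fin k) ℂ :=
  A.submatrix (α.orderEmbOfFin hα) (β.orderEmbOfFin hβ)

/-- The principal submatrix `A(α) = A(α, α)`. -/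
def psub {n : ℕ} (A : Matrix (Fin n) (Fin n) ℂ) (α : Finset (Fin n)) :
    Matrix (Fin α.card) (Fin α.card) ℂ :=
  subm A α α rfl rfl

/-- The complex number `z` is real and strictly positive. -/
def PosReal (z : ℂ) : Prop := z.im = 0 ∧ 0 < z.re

/-- P-matrix: every principal minor is real and positive. -/
def IsPMatrix {n : ℕ} (A : Matrix (Fin n) (Fin n) ℂ) : Prop :=
  ∀ α : Finset (Fin n), PosReal (psub A α).det

/-- Strict GKK matrix: a P-matrix with `A[α,β] A[β,α] > 0` for every minor of dispersal `1`. -/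
def IsStrictGKK {n : ℕ} (A : Matrix (Fin n) (Fin n) ℂ) : Prop :=
  IsPMatrix A ∧ ∀ (α β : Finset (Fin n)) (h : β.card = α.card), α.card - (α ∩ β).card = 1 →
    PosReal ((subm A α β rfl h).det * (subm A β α h rfl).det)

end Pool.Agent.Lib.MP_25f4f2_al
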