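import Pool.Agent.Lib.MP_25f4f2_al.Up

/-! Every point of the wedge is an eigenvalue of a real strict GKK matrix. -/

namespace Pool.Agent.Lib.MP_25f4f2_al

open Matrix Real Filter Topology

/-- Row `i` is `u i * y` left of the diagonal, `e i` on it and `u i` right of it. -/
def tri {k : ℕ} (y : ℂ) (u e : Fin k → ℂ) : Matrix (Fin k) (Fin k) ℂ :=
  of fun i j => if i < j then u i else if i = j then e i else u i * y

theorem det_tri {k : ℕ} (y : ℂ) (u e : Fin k → ℂ) :
    (1 - y) * (tri y u e).det = ∏ i, (e i - u i * y) - y * ∏ i, (e i - u i) := by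
  have key : ∀ t : ℂ, (updateRow (fromBlocks 1 0 (replicateCol Unit u) (tri y u e)) (Sum.inl ())
      (Sum.elim (fun _ => 1) fun _ => t)).det = (of fun i j => tri y u e i j - u i * t).det := by
    intro t
    have a1 : updateRow (fromBlocks 1 0 (replicateCol Unit u) (tri y u e)) (Sum.inl ())
        (Sum.elim (fun _ => 1) fun _ => t) =
        fromBlocks 1 (replicateRow Unit fun _ => t) (replicateCol Unit u) (tri y u e) := by
      ext (i | i) (j | j) <;> simp [updateRow_apply]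
    rw [a1, det_fromBlocks_one₁₁]
    congr 1
    ext i j
    simp [mul_apply]
  have a2 : (Sum.elim (fun _ => 1) fun _ => y : Unit ⊕ Fin k → ℂ) =
      (1 - y) • (Sum.elim (fun _ => 1) fun _ => 0) + y • Sum.elim (fun _ => 1) fun _ => 1 := by
    ext (i | i) <;> simp
  have a3 := key y
  rw [a2, det_updateRow_add, det_updateRow_smul, det_updateRow_smul, key, key,
    det_of_isLowerTriangular (of fun i j => tri y u e i j - u i * 1) fun i j h => by
      have h' : i < j := h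
      simp [tri, h'],
    det_of_isUpperTriangular (M := of fun i j => tri y u e i j - u i * y) fun i j h => by
      have h' : j < i := h
      simp [tri, h'.ne', h'.not_gt]] at a3
  simp only [mul_zero, sub_zero, mul_one, of_apply] at a3
  simp only [tri, of_apply, lt_irrefl, if_false, if_true] at a3 ⊢
  exact eq_sub_of_add_eq a3

theorem det_psub_tri {n : ℕ} (y : ℂ) (u e : Fin n → ℂ) (α : Finset (Fin n)) :
    (1 - y) * (psub (tri y u e) α).det = ∏ i ∈ α, (e i - u i * y) - y * ∏ i ∈ α, (e i - u i) := by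
  have a1 : psub (tri y u e) α =
      tri y (fun i => u (α.orderEmbOfFin rfl i)) fun i => e (α.orderEmbOfFin rfl i) := by
    ext i j
    simp [psub, subm, tri]
  rw [a1, det_tri]
  conv_rhs => rw [← α.map_orderEmbOfFin_univ rfl, Finset.prod_map, Finset.prod_map]
  rfl

theorem build {n : ℕ} {y : ℝ} (y0 : 0 < y) (y1 : y < 1) {a b : Fin n → ℝ}
    (hab : ∀ i, 0 < a i * b i) (hlt : ∀ i, b i < a i)
    (hp : ∀ α : Finset (Fin n), y * ∏ i ∈ α, b i < ∏ i ∈ α, a i) {z : ℂ}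
    (hz : ∏ i, ((a i : ℂ) + z) = y * ∏ i, ((b i : ℂ) + z)) :
    ∃ A : Matrix (Fin n) (Fin n) ℂ, (∀ i j, (A i j).im = 0) ∧ IsStrictGKK A ∧
      -z ∈ spectrum ℂ A := by
  have w0 : 0 < 1 - y := sub_pos.2 y1
  have w1 : (1 : ℂ) - y ≠ 0 := by exact_mod_cast w0.ne'
  obtain ⟨u, hu⟩ : ∃ u : Fin n → ℂ, ∀ i, u i = ((a i - b i) / (1 - y) : ℝ) := ⟨_, fun _ => rfl⟩
  obtain ⟨e, he⟩ : ∃ e : Fin n → ℂ, ∀ i, e i = ((a i - y * b i) / (1 - y) : ℝ) :=
    ⟨_, fun _ => rfl⟩
  have ea : ∀ i, e i - u i * y = a i := fun i => by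
    rw [hu, he]
    push_cast
    field_simp
    ring
  have eb : ∀ i, e i - u i = b i := fun i => by
    rw [hu, he]
    push_cast
    field_simp
    ring
  have d1 : ∀ α, (psub (tri y u e) α).det =
      ((∏ i ∈ α, a i - y * ∏ i ∈ α, b i) / (1 - y) : ℝ) := fun α => by
    push_cast
    rw [eq_div_iff w1, mul_comm, det_psub_tri]
    simp only [ea, eb]
  have hP : IsPMatrix (tri y u e) := fun α => by
    rw [d1]
    exact ⟨Complex.ofReal_im _, div_pos (sub_pos.2 (hp α)) w0⟩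
  refine ⟨tri y u e, fun i j => ?_, hP.strict_iff.2 fun γ i j hij hi hj => ?_, mem_spec.2 ?_⟩
  · rw [tri, of_apply, hu, he, ← Complex.ofReal_mul]
    split_ifs <;> exact Complex.ofReal_im _
  · have hi' : i ∉ insert j γ := by simp [hij, hi]
    simp only [pm, d1, Complex.ofReal_re, Finset.prod_insert, hi, hj, hi', not_false_eq_true]
    rw [div_mul_div_comm, div_mul_div_comm, div_lt_div_iff_of_pos_right (mul_pos w0 w0)]
    have a1 : 0 < (∏ k ∈ γ, a k) * ∏ k ∈ γ, b k := by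
      rw [← Finset.prod_mul_distrib]
      exact Finset.prod_pos fun k _ => hab k
    linarith [mul_pos (mul_pos y0 a1) (mul_pos (sub_pos.2 (hlt i)) (sub_pos.2 (hlt j)))]
  · have a1 : (-z) • (1 : Matrix (Fin n) (Fin n) ℂ) - tri y u e = -tri y u fun i => e i + z := by
      ext i j
      rcases lt_trichotomy i j with h | h | h
      · simp [tri, h, h.ne]
      · simp [tri, h]
        ring
      · simp [tri, h.ne', h.not_gt]
    have a2 := det_tri y u fun i => e i + z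
    simp only [add_sub_right_comm, ea, eb, hz, sub_self] at a2
    rw [a1, det_neg, (mul_eq_zero.1 a2).resolve_left w1, mul_zero]

theorem root0 {m : ℕ} {ρ θ : ℝ} (r0 : 0 < ρ) (h0 : 0 < θ) (h1 : θ < π) (h2 : π + θ < m * θ) :
    ∃ (u : ℂ) (δ : ℝ), 0 < δ ∧ u.im < 0 ∧
      (ρ * Complex.exp (θ * Complex.I)).im < (u * (ρ * Complex.exp (θ * Complex.I))).im ∧
      ρ * Complex.exp (θ * Complex.I) * u ^ m = -δ := by
  have m0 : (0 : ℝ) < m := (mul_pos_iff_of_pos_right h0).1 (by linarith [pi_pos])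
  obtain ⟨β, hβ⟩ : ∃ β : ℝ, m * β = π + θ := ⟨(π + θ) / m, mul_div_cancel₀ _ m0.ne'⟩
  have b0 : 0 < β := (mul_pos_iff_of_pos_left m0).1 (by linarith [pi_pos])
  have b1 : β < θ := lt_of_mul_lt_mul_left (by linarith) m0.le
  have s1 : 0 < sin θ := sin_pos_of_pos_of_lt_pi h0 h1
  have s2 : 0 < sin (θ - β) := sin_pos_of_pos_of_lt_pi (by linarith) (by linarith)
  have s3 : 0 < sin β := sin_pos_of_pos_of_lt_pi b0 (by linarith)
  obtain ⟨s, s0, hs⟩ : ∃ s : ℝ, 0 < s ∧ s * sin (θ - β) = 2 * sin θ :=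
    ⟨2 * sin θ / sin (θ - β), by positivity, div_mul_cancel₀ _ s2.ne'⟩
  refine ⟨s * Complex.exp ((-β : ℝ) * Complex.I), ρ * s ^ m, by positivity, ?_, ?_, ?_⟩
  · rw [Complex.im_ofReal_mul, Complex.exp_ofReal_mul_I_im, sin_neg]
    nlinarith
  · rw [mul_mul_mul_comm, ← Complex.exp_add, ← add_mul, ← Complex.ofReal_add,
      ← Complex.ofReal_mul, Complex.im_ofReal_mul, Complex.im_ofReal_mul,
      Complex.exp_ofReal_mul_I_im, Complex.exp_ofReal_mul_I_im, neg_add_eq_sub, mul_right_comm, hs]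
    nlinarith
  · have e : (θ : ℂ) * Complex.I + m * (((-β : ℝ) : ℂ) * Complex.I) = -(π * Complex.I) := by
      have : (m : ℂ) * β = π + θ := by exact_mod_cast hβ
      push_cast
      linear_combination (-Complex.I) * this
    rw [mul_pow, mul_mul_mul_comm, ← Complex.exp_nat_mul, ← Complex.exp_add, e,
      Complex.exp_neg_pi_mul_I]
    push_cast
    ring

theorem param {m : ℕ} (m0 : m ≠ 0) {z u : ℂ} {δ : ℝ} (z0 : 0 < z.im) (d0 : 0 < δ)
    (h1 : u.im < 0) (h2 : z.im < (u * z).im) (h3 : z * u ^ m = -δ) :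
    ∃ ε a b : ℝ, 0 < ε ∧ ε < 1 ∧ 0 < b ∧ b < a ∧ ε * a ^ m < δ * b ^ m ∧
      (-ε + z) * (a + z) ^ m = (ε * z - δ) * (b + z) ^ m := by
  have zn : ∀ ε : ℝ, -ε + z ≠ 0 := fun ε e => z0.ne' (by simpa using congrArg Complex.im e)
  have un : u ^ m ≠ 0 := pow_ne_zero _ fun e => h1.ne (by rw [e, Complex.zero_im])
  obtain ⟨V, hV⟩ : ∃ V : ℝ → ℂ, V = fun ε : ℝ => (ε * z - δ) / ((-ε + z) * u ^ m) := ⟨_, rfl⟩
  have V0 : V 0 = 1 := by
    rw [hV]
    refine (div_eq_one_iff_eq (mul_ne_zero (zn 0) un)).2 ?_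
    simp [h3]
  have Vc : ContinuousAt V 0 := by
    rw [hV]
    exact ContinuousAt.div (by fun_prop) (by fun_prop) (mul_ne_zero (zn 0) un)
  obtain ⟨U, hU⟩ : ∃ U : ℝ → ℂ, U = fun ε => u * V ε ^ (m⁻¹ : ℂ) := ⟨_, rfl⟩
  have U0 : U 0 = u := by simp [hU, V0]
  have Uc : ContinuousAt U 0 := by
    rw [hU]
    exact continuousAt_const.mul (Vc.cpow continuousAt_const (V0 ▸ Complex.one_mem_slitPlane))
  obtain ⟨B, hB⟩ : ∃ B : ℝ → ℝ, B = fun ε => ((U ε * z).im - z.im) / -(U ε).im := ⟨_, rfl⟩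
  have Bc : ContinuousAt B 0 := by
    rw [hB]
    exact ContinuousAt.div (by fun_prop) (by fun_prop) (by rw [U0]; exact (neg_pos.2 h1).ne')
  obtain ⟨C, hC⟩ : ∃ C : ℝ → ℝ, C = fun ε => (U ε * (B ε + z)).re - z.re := ⟨_, rfl⟩
  have Cc : ContinuousAt C 0 := by
    rw [hC]
    fun_prop
  have B0 : 0 < B 0 := by
    simp only [hB, U0]
    exact div_pos (sub_pos.2 h2) (neg_pos.2 h1)
  have e1 : ∀ᶠ ε in 𝓝 (0 : ℝ), (U ε).im < 0 :=
    ContinuousAt.eventually_lt (by fun_prop) continuousAt_const (by rwa [U0])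
  have e2 : ∀ᶠ ε in 𝓝 (0 : ℝ), 0 < B ε := continuousAt_const.eventually_lt Bc B0
  have e3 : ∀ᶠ ε in 𝓝 (0 : ℝ), ε * C ε ^ m < δ * B ε ^ m :=
    ContinuousAt.eventually_lt (by fun_prop) (by fun_prop) (by rw [zero_mul]; positivity)
  have e4 : ∀ᶠ ε in 𝓝 (0 : ℝ), ε < 1 := eventually_lt_nhds one_pos
  obtain ⟨ε, ⟨⟨a1, a2⟩, a3, a4⟩, a5⟩ := ((((e1.and e2).and (e3.and e4)).filter_mono
    (nhdsWithin_le_nhds (s := Set.Ioi 0))).and self_mem_nhdsWithin).exists
  have b1 : B ε * -(U ε).im = (U ε * z).im - z.im := by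
    rw [hB]
    exact div_mul_cancel₀ _ (neg_pos.2 a1).ne'
  have b2 : (C ε : ℂ) + z = U ε * (B ε + z) := by
    refine Complex.ext (by simp [hC]) ?_
    rw [mul_add, Complex.add_im, Complex.add_im, Complex.ofReal_im, Complex.im_mul_ofReal]
    linarith
  refine ⟨ε, C ε, B ε, a5, a4, a2, ?_, a3, ?_⟩
  · have c1 := congrArg Complex.re b2
    have c2 := congrArg Complex.im b2
    simp only [Complex.add_re, Complex.add_im, Complex.mul_re, Complex.mul_im, Complex.ofReal_re,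
      Complex.ofReal_im, zero_add] at c1 c2
    have c3 : (C ε - B ε) * z.im = -(U ε).im * ((B ε + z.re) ^ 2 + z.im ^ 2) := by
      linear_combination z.im * c1 - (B ε + z.re) * c2
    exact sub_pos.1 ((mul_pos_iff_of_pos_right z0).1
      (c3 ▸ mul_pos (neg_pos.2 a1) (by positivity)))
  · rw [b2, mul_pow, ← mul_assoc, hU, mul_pow, Complex.cpow_nat_inv_pow _ m0, ← mul_assoc, hV,
      mul_div_cancel₀ _ (mul_ne_zero (zn ε) un)]

theorem prod_ite0 {R : Type} [CommMonoid R] {m : ℕ} (α : Finset (Fin (m + 1))) (s t : R) :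
    ∏ i ∈ α, (if i = 0 then s else t) = (if 0 ∈ α then s else 1) * t ^ (α.erase 0).card := by
  have e : ∏ i ∈ α.erase 0, (if i = 0 then s else t) = t ^ (α.erase 0).card :=
    Finset.prod_eq_pow_card fun i hi => if_neg (Finset.ne_of_mem_erase hi)
  split_ifs with h
  · rw [← Finset.mul_prod_erase _ _ h, if_pos rfl, e]
  · rw [← e, Finset.erase_eq_of_notMem h, one_mul]

theorem build' {m : ℕ} {ε δ a b : ℝ} (e0 : 0 < ε) (e1 : ε < 1) (b0 : 0 < b) (ba : b < a)
    (h : ε * a ^ m < δ * b ^ m) {z : ℂ}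
    (hz : (-ε + z) * (a + z) ^ m = (ε * z - δ) * (b + z) ^ m) :
    ∃ A : Matrix (Fin (m + 1)) (Fin (m + 1)) ℂ, (∀ i j, (A i j).im = 0) ∧ IsStrictGKK A ∧
      -z ∈ spectrum ℂ A := by
  have a0 := b0.trans ba
  have k : ∀ r ≤ m, ε * a ^ r < δ * b ^ r := fun r hr => by
    obtain ⟨j, rfl⟩ := Nat.exists_eq_add_of_le hr
    refine lt_of_mul_lt_mul_right ?_ (pow_pos b0 j).le
    rw [pow_add, pow_add, ← mul_assoc, ← mul_assoc] at h
    exact (mul_le_mul_of_nonneg_left (pow_le_pow_left₀ b0.le ba.le j) (by positivity)).trans_lt h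
  have k0 : ε < δ := by simpa using k 0 m.zero_le
  have c0 : (Finset.univ.erase (0 : Fin (m + 1))).card = m := by simp
  refine build e0 e1 (a := fun i => if i = 0 then -ε else a)
    (b := fun i => if i = 0 then -(δ / ε) else b) (fun i => ?_) (fun i => ?_) (fun α => ?_) ?_
  · split_ifs
    · exact mul_pos_of_neg_of_neg (neg_neg_of_pos e0) (neg_neg_of_pos (div_pos (e0.trans k0) e0))
    · exact mul_pos a0 b0
  · split_ifs
    · rw [neg_lt_neg_iff, lt_div_iff₀ e0]
      nlinarith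
    · exact ba
  · rw [prod_ite0, prod_ite0]
    split_ifs
    · rw [← mul_assoc, mul_neg, mul_div_cancel₀ _ e0.ne']
      linarith [k _ ((Finset.card_le_card
        (Finset.erase_subset_erase 0 α.subset_univ)).trans_eq c0)]
    · rw [one_mul, one_mul]
      exact (mul_lt_of_lt_one_left (pow_pos b0 _) e1).trans_le (pow_le_pow_left₀ b0.le ba.le _)
  · have : (ε : ℂ) ≠ 0 := by exact_mod_cast e0.ne'
    simp only [apply_ite Complex.ofReal, apply_ite (· + z), prod_ite0, c0, Finset.mem_univ,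
      if_true]
    push_cast
    rw [hz]
    field_simp
    ring

theorem exists_of_wedge {n : ℕ} (hn : 4 ≤ n) {μ : ℂ} (h0 : μ ≠ 0)
    (h : |μ.arg| < π - π / (n - 2)) :
    ∃ A : Matrix (Fin n) (Fin n) ℂ, (∀ i j, (A i j).im = 0) ∧ IsStrictGKK A ∧
      μ ∈ spectrum ℂ A := by
  obtain ⟨m, rfl⟩ : ∃ m, n = m + 1 := ⟨n - 1, by omega⟩
  have r0 := norm_pos_iff.2 h0
  have m3 : (3 : ℝ) ≤ m := by exact_mod_cast (by omega : 3 ≤ m)
  rcases eq_or_ne μ.arg 0 with a0 | a0
  · have e : μ = ‖μ‖ := by simpa [a0] using (Complex.norm_mul_exp_arg_mul_I μ).symm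
    have y1 : (1 / 2 : ℝ) ^ (m + 1) < 1 := pow_lt_one₀ (by norm_num) (by norm_num) m.succ_ne_zero
    have := build (n := m + 1) (a := fun _ => 2 / 3 * ‖μ‖) (b := fun _ => 1 / 3 * ‖μ‖)
      (by positivity) y1 (fun _ => by positivity) (fun _ => by linarith) (fun α => by
        rw [Finset.prod_const, Finset.prod_const]
        exact (mul_lt_of_lt_one_left (by positivity) y1).trans_le
          (pow_le_pow_left₀ (by positivity) (by linarith) _)) (z := -μ) (by
        rw [Finset.prod_const, Finset.prod_const, Finset.card_univ, Fintype.card_fin]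
        push_cast
        rw [← mul_pow, ← e]
        congr 1
        ring)
    rwa [neg_neg] at this
  have p0 : 0 < |μ.arg| := abs_pos.2 a0
  have p1 : π / (m - 1) < π - |μ.arg| := by
    rw [show (m : ℝ) - 1 = ((m + 1 : ℕ) : ℝ) - 2 by push_cast; ring]
    linarith
  have p2 : 0 < π - |μ.arg| := (div_pos pi_pos (by linarith)).trans p1
  rw [div_lt_iff₀ (by linarith)] at p1
  obtain ⟨u, δ, d0, c1, c2, c3⟩ := root0 (m := m) r0 p2 (by linarith) (by linarith)
  obtain ⟨ε, a, b, e0, e1, b0, ba, e2, e3⟩ := param (by omega) (by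
    rw [Complex.im_ofReal_mul, Complex.exp_ofReal_mul_I_im]
    exact mul_pos r0 (sin_pos_of_pos_of_lt_pi p2 (by linarith))) d0 c1 c2 c3
  have e4 : (‖μ‖ : ℂ) * Complex.exp ((π - |μ.arg| : ℝ) * Complex.I) =
      -(‖μ‖ * Complex.exp (-(|μ.arg| : ℝ) * Complex.I)) := by
    rw [Complex.ofReal_sub, sub_mul, sub_eq_add_neg, Complex.exp_add, Complex.exp_pi_mul_I,
      neg_one_mul, mul_neg, neg_mul]
  rw [e4] at e3
  rcases abs_choice μ.arg with s | s <;> rw [s] at e3
  · have e5 := congrArg (starRingEnd ℂ) e3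
    simp only [map_mul, map_add, map_sub, map_neg, map_pow, Complex.conj_ofReal,
      ← Complex.exp_conj, Complex.conj_I, neg_mul_neg, Complex.norm_mul_exp_arg_mul_I] at e5
    simpa using build' e0 e1 b0 ba e2 e5
  · rw [Complex.ofReal_neg, neg_neg, Complex.norm_mul_exp_arg_mul_I] at e3
    simpa using build' e0 e1 b0 ba e2 e3

end Pool.Agent.Lib.MP_25f4f2_al
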