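import Mathlib

/-! A trigonometric sum with log-submodular weights has no zero in a wedge. -/

namespace Pool.Agent.Lib.MP_25f4f2_al

open Real Finset

theorem sin_le {θ x : ℝ} (h0 : 0 ≤ θ) (h1 : θ ≤ x) (h2 : x ≤ π - θ) : sin θ ≤ sin x := by
  rcases le_total x (π / 2) with h | h
  · exact sin_le_sin_of_le_of_le_pi_div_two (by linarith [pi_pos]) h h1
  · rw [← sin_pi_sub x]
    exact sin_le_sin_of_le_of_le_pi_div_two (by linarith [pi_pos]) (by linarith) (by linarith)

theorem neg_sin_le {θ x : ℝ} (h0 : 0 ≤ θ) (h : θ ≤ π / 2) (h1 : 0 ≤ x) (h2 : x ≤ π + θ) :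
    -sin θ ≤ sin x := by
  rcases le_total x π with h3 | h3
  · linarith [sin_nonneg_of_nonneg_of_le_pi h1 h3,
      sin_nonneg_of_nonneg_of_le_pi h0 (by linarith [pi_pos])]
  · have := sin_le_sin_of_le_of_le_pi_div_two (x := x - π) (y := θ) (by linarith [pi_pos]) h
      (by linarith)
    rw [sin_sub_pi] at this
    linarith

theorem cmp {n t u v : ℕ} {w s : ℕ → ℝ} {a b c : ℝ} (hw : ∀ k, 0 ≤ w k)
    (h : ∑ k ∈ range (n + 1), w k * s k = 0) (ht : t ≤ n) (hu : u ≤ n) (hv : v ≤ n)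
    (hs : ∀ k ≤ n, (if k = t then a else 0) - (if k = u then b else 0) -
      (if k = v then c else 0) ≤ s k) : w t * a ≤ w u * b + w v * c := by
  have h1 := (sum_le_sum fun k (hk : k ∈ range (n + 1)) =>
    mul_le_mul_of_nonneg_left (hs k (Nat.lt_succ_iff.1 (mem_range.1 hk))) (hw k)).trans_eq h
  simp only [mul_sub, sum_sub_distrib, mul_ite, mul_zero, sum_ite_eq', mem_range,
    Nat.lt_succ_iff, ht, hu, hv, if_true] at h1
  linarith

section
variable {n : ℕ} {w : ℕ → ℝ} {θ : ℝ} (hn : 4 ≤ n) (hw : ∀ k, 0 ≤ w k) (h0 : 0 < θ)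
  (h1 : ((n : ℝ) - 2) * θ ≤ π) (h : ∀ ψ, ∑ k ∈ range (n + 1), w k * sin (k * θ - ψ) = 0)
include hn hw h0 h1 h

theorem seq_a {t : ℕ} (h2 : 2 ≤ t) (h3 : t + 2 ≤ n) : w t ≤ w 0 + w n := by
  have n4 : (4 : ℝ) ≤ n := by exact_mod_cast hn
  have a1 : θ ≤ π / 2 := by nlinarith
  have s0 : 0 < sin θ := sin_pos_of_pos_of_lt_pi h0 (by linarith [pi_pos])
  have := cmp (t := t) (u := 0) (v := n) (a := sin θ) (b := sin θ) (c := sin θ) hw (h θ)
    (by omega) (by omega) le_rfl fun k hk => by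
      rcases eq_or_ne k 0 with rfl | k0
      · rw [if_neg (by omega), if_pos rfl, if_neg (by omega)]
        simp
      have k1 : (1 : ℝ) ≤ k := by exact_mod_cast Nat.pos_of_ne_zero k0
      rcases eq_or_ne k n with rfl | kn
      · rw [if_neg (by omega), if_neg k0, if_pos rfl]
        linarith [neg_sin_le (x := k * θ - θ) h0.le a1 (by nlinarith) (by linarith)]
      rw [if_neg k0, if_neg kn, sub_zero, sub_zero]
      split_ifs with kt
      · have k2 : (2 : ℝ) ≤ k := by exact_mod_cast kt ▸ h2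
        have k3 : (k : ℝ) + 2 ≤ n := by exact_mod_cast kt ▸ h3
        exact sin_le h0.le (by nlinarith) (by nlinarith)
      · have k3 : (k : ℝ) + 1 ≤ n := by exact_mod_cast lt_of_le_of_ne hk kn
        exact sin_nonneg_of_nonneg_of_le_pi (by nlinarith) (by nlinarith)
  exact le_of_mul_le_mul_right (by linarith) s0

theorem seq_b : w (n - 1) ≤ w 1 + 2 * w 0 := by
  have n4 : (4 : ℝ) ≤ n := by exact_mod_cast hn
  have a1 : θ ≤ π / 2 := by nlinarith
  have s0 : 0 < sin θ := sin_pos_of_pos_of_lt_pi h0 (by linarith [pi_pos])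
  have := cmp (t := n - 1) (u := 1) (v := 0) (a := sin θ) (b := sin θ) (c := 2 * sin θ) hw
    (h (2 * θ)) (by omega) (by omega) (by omega) fun k hk => by
      rcases eq_or_ne k 0 with rfl | k0
      · rw [if_neg (by omega), if_neg (by omega), if_pos rfl, Nat.cast_zero, zero_mul, zero_sub,
          zero_sub, sin_neg, sin_two_mul]
        nlinarith [cos_le_one θ]
      rcases eq_or_ne k 1 with rfl | k1
      · rw [if_neg (by omega), if_pos rfl, if_neg k0, show ((1 : ℕ) : ℝ) * θ - 2 * θ = -θ by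
          push_cast; ring, sin_neg]
        linarith
      have k2 : (2 : ℝ) ≤ k := by exact_mod_cast (by omega : 2 ≤ k)
      have k3 : (k : ℝ) ≤ n := by exact_mod_cast hk
      rw [if_neg k1, if_neg k0, sub_zero, sub_zero]
      split_ifs with kt
      · have k4 : (k : ℝ) + 1 = n := by exact_mod_cast (by omega : k + 1 = n)
        exact sin_le h0.le (by nlinarith) (by nlinarith)
      · exact sin_nonneg_of_nonneg_of_le_pi (by nlinarith) (by nlinarith)
  exact le_of_mul_le_mul_right (by linarith) s0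

end

theorem seq_rev {n : ℕ} {w : ℕ → ℝ} {θ : ℝ}
    (h : ∀ ψ, ∑ k ∈ range (n + 1), w k * sin (k * θ - ψ) = 0) (ψ : ℝ) :
    ∑ k ∈ range (n + 1), w (n - k) * sin (k * θ - ψ) = 0 := by
  rw [← neg_eq_zero, ← h (n * θ - ψ), ← sum_flip (fun k => w k * sin (k * θ - (n * θ - ψ))),
    ← sum_neg_distrib]
  refine sum_congr rfl fun k hk => ?_
  rw [Nat.cast_sub (Nat.lt_succ_iff.1 (mem_range.1 hk)), ← mul_neg, ← sin_neg]
  congr 2
  ring

theorem num {c0 c1 c2 d2 d1 d0 : ℝ} (p0 : 0 < c0) (p1 : 0 < c1) (p2 : 0 ≤ c2) (q2 : 0 ≤ d2)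
    (q1 : 0 < d1) (q0 : 0 < d0) (a1 : c2 ≤ c0 + d0) (a2 : d2 ≤ c0 + d0) (b : c1 ≤ d1 + 2 * d0)
    (hd : d0 ≤ c0) (e1 : 3 * (c0 * d1) ≤ c1 * d2) (e2 : 3 * (d0 * c1) ≤ d1 * c2)
    (e3 : 4 * (c0 * d0) ≤ c1 * d1) : False := by
  have f1 : 9 * (c0 * d0) ≤ d2 * c2 := le_of_mul_le_mul_right (by
    linarith [mul_le_mul e1 e2 (by positivity) (by positivity)]) (mul_pos p1 q1)
  have f2 : d2 * c2 ≤ (2 * c0) * (2 * c0) :=
    mul_le_mul (by linarith) (by linarith) p2 (by positivity)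
  have f3 : 9 * d0 ≤ 4 * c0 := le_of_mul_le_mul_left (by linarith) p0
  have f4 : 2 * d1 ≤ c1 := le_of_mul_le_mul_left (by
    linarith [mul_le_mul_of_nonneg_left (show d2 ≤ 3 / 2 * c0 by linarith) p1.le]) p0
  have f5 : c1 * d1 ≤ (4 * d0) * (2 * d0) :=
    mul_le_mul (by linarith) (by linarith) q1.le (by positivity)
  have f6 : c0 ≤ 2 * d0 := le_of_mul_le_mul_right (by linarith) q0
  linarith

theorem seq_ne {n : ℕ} {w : ℕ → ℝ} {θ : ℝ} (hn : 4 ≤ n) (hw : ∀ k, 0 ≤ w k)
    (hp : ∀ k ≤ n, 0 < w k) (h1 : ((n : ℝ) - 2) * |θ| ≤ π)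
    (e1 : 3 * (w 0 * w (n - 1)) ≤ w 1 * w (n - 2)) (e2 : 3 * (w n * w 1) ≤ w (n - 1) * w 2)
    (e3 : 4 * (w 0 * w n) ≤ w 1 * w (n - 1))
    (h : ∀ ψ, ∑ k ∈ range (n + 1), w k * sin (k * θ - ψ) = 0) : False := by
  have h' : ∀ ψ, ∑ k ∈ range (n + 1), w k * sin (k * |θ| - ψ) = 0 := fun ψ => by
    rcases abs_choice θ with e | e <;> rw [e]
    · exact h ψ
    · rw [← neg_eq_zero, ← h (-ψ), ← sum_neg_distrib]
      refine sum_congr rfl fun k _ => ?_
      rw [← mul_neg, ← sin_neg]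
      congr 2
      ring
  rcases (abs_nonneg θ).eq_or_lt with h0 | h0
  · have := h' (-(π / 2))
    simp only [← h0, mul_zero, zero_sub, neg_neg, sin_pi_div_two, mul_one] at this
    exact (sum_pos (fun k hk => hp k (Nat.lt_succ_iff.1 (mem_range.1 hk)))
      nonempty_range_add_one).ne' this
  have a1 := seq_a hn hw h0 h1 h' (t := 2) le_rfl hn
  have a2 := seq_a hn hw h0 h1 h' (t := n - 2) (by omega) (by omega)
  have b1 := seq_b hn hw h0 h1 h'
  have b2 := seq_b (w := fun k => w (n - k)) hn (fun k => hw _) h0 h1 (seq_rev h')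
  rw [show n - (n - 1) = 1 by omega, Nat.sub_zero] at b2
  rcases le_total (w n) (w 0) with hd | hd
  · exact num (hp 0 (by omega)) (hp 1 (by omega)) (hw 2) (hw _) (hp _ (by omega)) (hp n le_rfl)
      a1 a2 b2 hd e1 e2 e3
  · exact num (hp n le_rfl) (hp (n - 1) (by omega)) (hw (n - 2)) (hw 2) (hp 1 (by omega))
      (hp 0 (by omega)) (by linarith) (by linarith) b1 hd e2 e1 (by linarith)

/-- Positive and locally log-submodular set functions. -/
def LS {ι : Type} [DecidableEq ι] (p : Finset ι → ℝ) : Prop :=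
  (∀ α, 0 < p α) ∧ ∀ (γ : Finset ι) (i j : ι), i ≠ j → i ∉ γ → j ∉ γ →
    p γ * p (insert i (insert j γ)) ≤ p (insert i γ) * p (insert j γ)

variable {ι : Type} [DecidableEq ι] {p : Finset ι → ℝ}

theorem LS.ins (h : LS p) (i : ι) (α : Finset ι) (hi : i ∉ α) :
    p ∅ * p (insert i α) ≤ p {i} * p α := by
  induction α using Finset.induction_on with
  | empty => exact (mul_comm _ _).le
  | insert j α hj ih =>
    rw [mem_insert, not_or] at hi
    refine le_of_mul_le_mul_left ?_ (h.1 α)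
    linarith [mul_le_mul_of_nonneg_left (h.2 α i j hi.1 hi.2 hj) (h.1 ∅).le,
      mul_le_mul_of_nonneg_right (ih hi.2) (h.1 (insert j α)).le]

theorem LS.scale (h : LS p) {r : ℝ} (hr : 0 < r) : LS fun α => r ^ α.card * p α :=
  ⟨fun α => mul_pos (pow_pos hr _) (h.1 α), fun γ i j hij hi hj => by
    have : i ∉ insert j γ := by simp [hij, hi]
    simp only [card_insert_of_notMem, this, hi, hj, not_false_eq_true, pow_succ]
    linarith [mul_le_mul_of_nonneg_left (h.2 γ i j hij hi hj)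
      (show 0 ≤ r ^ γ.card * r * (r ^ γ.card * r) by positivity)]⟩

variable [Fintype ι]

theorem LS.compl (h : LS p) : LS fun α => p αᶜ :=
  ⟨fun α => h.1 _, fun γ i j hij hi hj => by
    have := h.2 (insert i (insert j γ))ᶜ i j hij (by simp) (by simp)
    have e1 : insert i (insert j (insert i (insert j γ))ᶜ) = γᶜ := by
      ext x
      by_cases a : x = i <;> by_cases b : x = j <;> simp_all
    have e2 : insert i (insert i (insert j γ))ᶜ = (insert j γ)ᶜ := by
      ext x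
      by_cases a : x = i <;> simp_all
    have e3 : insert j (insert i (insert j γ))ᶜ = (insert i γ)ᶜ := by
      ext x
      have := hij.symm
      by_cases a : x = j <;> simp_all
    rw [e1, e2, e3] at this
    linarith⟩

/-- The sum over the sets of a given size. -/
noncomputable def cs (p : Finset ι → ℝ) (k : ℕ) : ℝ := ∑ α ∈ powersetCard k univ, p α

omit [DecidableEq ι] in
theorem cs_nonneg (h : ∀ α, 0 < p α) (k : ℕ) : 0 ≤ cs p k := sum_nonneg fun α _ => (h α).le

omit [DecidableEq ι] in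
theorem cs_pos (h : ∀ α, 0 < p α) {k : ℕ} (hk : k ≤ Fintype.card ι) : 0 < cs p k :=
  sum_pos (fun α _ => h α) (powersetCard_nonempty.2 hk)

theorem cs_compl (p : Finset ι → ℝ) {k : ℕ} (hk : k ≤ Fintype.card ι) :
    cs (fun α => p αᶜ) k = cs p (Fintype.card ι - k) :=
  sum_bij' (fun α _ => αᶜ) (fun α _ => αᶜ)
    (fun α h => by rw [mem_powersetCard_univ] at h ⊢; rw [card_compl, h])
    (fun α h => by rw [mem_powersetCard_univ] at h ⊢; rw [card_compl, h]; omega)
    (fun α _ => compl_compl α) (fun α _ => compl_compl α) fun _ _ => rfl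

theorem LS.cs_le (h : LS p) (j : ℕ) : (j + 1) * (cs p 0 * cs p (j + 1)) ≤ cs p 1 * cs p j := by
  have e0 : cs p 0 = p ∅ := by simp [cs]
  have e1 : cs p 1 = ∑ i, p {i} := by simp [cs, powersetCard_one]
  have a1 : (j + 1) * (p ∅ * cs p (j + 1)) ≤
      ∑ β ∈ powersetCard (j + 1) univ, ∑ i, if i ∈ β then p {i} * p (β.erase i) else 0 := by
    rw [cs, mul_sum, mul_sum]
    refine sum_le_sum fun β hβ => ?_
    rw [← sum_filter, filter_mem_eq_inter, univ_inter, ← Nat.cast_add_one,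
      ← mem_powersetCard_univ.1 hβ, ← nsmul_eq_mul]
    refine card_nsmul_le_sum _ _ _ fun i hi => ?_
    have := h.ins i (β.erase i) (notMem_erase _ _)
    rwa [insert_erase hi] at this
  rw [e0, e1, sum_mul]
  refine a1.trans (sum_comm.trans_le (sum_le_sum fun i _ => ?_))
  rw [← sum_filter, ← mul_sum]
  refine mul_le_mul_of_nonneg_left ?_ (h.1 _).le
  have inj : Set.InjOn (fun β : Finset ι => β.erase i)
      ((powersetCard (j + 1) univ).filter fun β => i ∈ β : Finset (Finset ι)) :=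
    fun β hβ β' hβ' e => by
      rw [← insert_erase (mem_filter.1 hβ).2, ← insert_erase (mem_filter.1 hβ').2]
      exact congrArg _ e
  refine (sum_image (f := p) inj).symm.trans_le ?_
  refine sum_le_sum_of_subset_of_nonneg (fun α hα => ?_) fun α _ _ => (h.1 α).le
  obtain ⟨β, hβ, rfl⟩ := mem_image.1 hα
  rw [mem_powersetCard_univ, card_erase_of_mem (mem_filter.1 hβ).2,
    mem_powersetCard_univ.1 (mem_filter.1 hβ).1, Nat.add_sub_cancel]

theorem LS.ne (h : LS p) (hn : 4 ≤ Fintype.card ι) {θ : ℝ}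
    (h1 : ((Fintype.card ι : ℝ) - 2) * |θ| ≤ π)
    (h2 : ∀ ψ, ∑ α : Finset ι, p α * sin (α.card * θ - ψ) = 0) : False := by
  obtain ⟨m, hm⟩ := Nat.exists_eq_add_of_le' hn
  have m0 : (0 : ℝ) ≤ m := Nat.cast_nonneg _
  have a1 := h.cs_le (m + 2)
  have a2 := h.compl.cs_le (m + 2)
  have a3 := h.cs_le (m + 3)
  rw [cs_compl p (by omega), cs_compl p (by omega), cs_compl p (by omega), cs_compl p (by omega),
    show Fintype.card ι - (m + 2 + 1) = 1 by omega, show Fintype.card ι - (m + 2) = 2 by omega,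
    Nat.sub_zero] at a2
  push_cast at a1 a2 a3
  have n0 := cs_nonneg h.1
  refine seq_ne (w := cs p) hn n0 (fun k hk => cs_pos h.1 hk) h1 ?_ ?_ ?_ fun ψ => ?_
  · rw [hm]
    exact (mul_le_mul_of_nonneg_right (by linarith) (mul_nonneg (n0 _) (n0 _))).trans a1
  · exact (mul_le_mul_of_nonneg_right (by linarith) (mul_nonneg (n0 _) (n0 _))).trans a2
  · rw [hm]
    exact (mul_le_mul_of_nonneg_right (by linarith) (mul_nonneg (n0 _) (n0 _))).trans a3
  · rw [← h2 ψ, ← powerset_univ, sum_powerset, card_univ]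
    refine sum_congr rfl fun k _ => ?_
    rw [cs, sum_mul]
    exact sum_congr rfl fun α hα => by rw [mem_powersetCard_univ.1 hα]

end Pool.Agent.Lib.MP_25f4f2_al
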