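import Pool.Agent.Lib.MP_25f4f2_al.Defs

/-! Sylvester's identity: strict GKK means strictly log-submodular principal minors. -/

namespace Pool.Agent.Lib.MP_25f4f2_al

open Matrix

variable {n : ℕ} (A : Matrix (Fin n) (Fin n) ℂ) {ι : Type} [Fintype ι] [DecidableEq ι]

omit [Fintype ι] [DecidableEq ι] in
theorem exists_equiv {k : ℕ} {α : Finset (Fin n)} (h : α.card = k) {f : ι → Fin n}
    (hf : Function.Injective f) (hα : ∀ x, x ∈ α ↔ ∃ t, f t = x) :
    ∃ e : ι ≃ Fin k, ∀ t, α.orderEmbOfFin h (e t) = f t := by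
  have key : ∀ t, α.orderEmbOfFin h ((α.orderIsoOfFin h).symm ⟨f t, (hα _).2 ⟨t, rfl⟩⟩) = f t :=
    fun t => by rw [← Finset.coe_orderIsoOfFin_apply, OrderIso.apply_symm_apply]
  refine ⟨Equiv.ofBijective (fun t => (α.orderIsoOfFin h).symm ⟨f t, (hα _).2 ⟨t, rfl⟩⟩)
    ⟨fun s t e => hf ?_, fun s => ?_⟩, key⟩
  · rw [← key s, ← key t]
    exact congrArg _ e
  · obtain ⟨t, ht⟩ := (hα _).1 (α.orderEmbOfFin_mem h s)
    exact ⟨t, (α.orderEmbOfFin h).injective ((key t).trans ht)⟩

theorem det_psub {α : Finset (Fin n)} {f : ι → Fin n} (hf : Function.Injective f)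
    (hα : ∀ x, x ∈ α ↔ ∃ t, f t = x) : (psub A α).det = (A.submatrix f f).det := by
  obtain ⟨e, he⟩ := exists_equiv rfl hf hα
  rw [← det_submatrix_equiv_self e]
  congr 1
  ext s t
  simp only [psub, subm, submatrix_apply, he]

theorem det_mul_subm {k : ℕ} {α β : Finset (Fin n)} (h : α.card = k) (h' : β.card = k)
    {f g : ι → Fin n} (hf : Function.Injective f) (hα : ∀ x, x ∈ α ↔ ∃ t, f t = x)
    (hg : Function.Injective g) (hβ : ∀ x, x ∈ β ↔ ∃ t, g t = x) :
    (subm A α β h h').det * (subm A β α h' h).det =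
      (A.submatrix f g).det * (A.submatrix g f).det := by
  obtain ⟨e, he⟩ := exists_equiv h hf hα
  obtain ⟨e', he'⟩ := exists_equiv h' hg hβ
  have a1 : A.submatrix f g = (subm A α β h h').reindex e.symm e'.symm := by
    ext s t
    simp only [subm, reindex_apply, Equiv.symm_symm, submatrix_apply, he, he']
  have a2 : A.submatrix g f = (subm A β α h' h).reindex e'.symm e.symm := by
    ext s t
    simp only [subm, reindex_apply, Equiv.symm_symm, submatrix_apply, he, he']
  have a3 : Equiv.Perm.sign (e.symm.trans e'.symm.symm) =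
      Equiv.Perm.sign (e'.symm.trans e.symm.symm) := (Equiv.Perm.sign_symm _).symm
  rw [a1, a2, det_reindex, det_reindex, a3]
  rcases Int.units_eq_one_or (Equiv.Perm.sign (e'.symm.trans e.symm.symm)) with s | s <;>
    rw [s] <;> simp

theorem schur {v : ι → Fin n} (hv : (A.submatrix v v).det ≠ 0) :
    ∃ S : Matrix (Fin n) (Fin n) ℂ, ∀ (k : ℕ) (r c : Fin k → Fin n),
      (A.submatrix (Sum.elim r v) (Sum.elim c v)).det =
        (A.submatrix v v).det * (S.submatrix r c).det := by
  have := invertibleOfIsUnitDet _ (Ne.isUnit hv)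
  refine ⟨A - A.submatrix id v * ⅟(A.submatrix v v) * A.submatrix v id, fun k r c => ?_⟩
  have a1 : A.submatrix (Sum.elim r v) (Sum.elim c v) = fromBlocks (A.submatrix r c)
      (A.submatrix r v) (A.submatrix v c) (A.submatrix v v) := by
    ext (s | s) (t | t) <;> rfl
  rw [a1, det_fromBlocks₂₂]
  rfl

theorem det_psub_val (γ : Finset (Fin n)) : (psub A γ).det =
    (A.submatrix (Subtype.val : γ → Fin n) (Subtype.val : γ → Fin n)).det :=
  det_psub A Subtype.val_injective fun x => ⟨fun h => ⟨⟨x, h⟩, rfl⟩, fun ⟨t, h⟩ => h ▸ t.2⟩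

theorem elim_inj {k : ℕ} {γ : Finset (Fin n)} {r : Fin k → Fin n} (hr : Function.Injective r)
    (h : ∀ t, r t ∉ γ) : Function.Injective (Sum.elim r (Subtype.val : γ → Fin n)) :=
  hr.sumElim Subtype.val_injective fun s t e => h s (e ▸ t.2)

theorem sylvester {γ : Finset (Fin n)} (hγ : (psub A γ).det ≠ 0) {i j : Fin n} (hij : i ≠ j)
    (hi : i ∉ γ) (hj : j ∉ γ) (h : (insert j γ).card = (insert i γ).card) :
    (subm A (insert i γ) (insert j γ) rfl h).det * (subm A (insert j γ) (insert i γ) h rfl).det =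
      (psub A (insert i γ)).det * (psub A (insert j γ)).det -
        (psub A γ).det * (psub A (insert i (insert j γ))).det := by
  rw [det_psub_val A γ] at hγ ⊢
  obtain ⟨S, hS⟩ := schur A hγ
  have i1 : ∀ {l : Fin n}, l ∉ γ →
      Function.Injective (Sum.elim ![l] (Subtype.val : γ → Fin n)) := fun hl =>
    elim_inj (Function.injective_of_subsingleton _) (by simpa using hl)
  have m1 : ∀ l x : Fin n, x ∈ insert l γ ↔
      ∃ t, Sum.elim ![l] (Subtype.val : γ → Fin n) t = x := fun l x => by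
    simp [eq_comm (a := x)]
  have i2 : Function.Injective (Sum.elim ![i, j] (Subtype.val : γ → Fin n)) :=
    elim_inj (fun s t => by fin_cases s <;> fin_cases t <;> simp [hij, hij.symm])
      (by simp [Fin.forall_fin_two, hi, hj])
  have m2 : ∀ x : Fin n, x ∈ insert i (insert j γ) ↔
      ∃ t, Sum.elim ![i, j] (Subtype.val : γ → Fin n) t = x := fun x => by
    simp [eq_comm (a := x), Fin.exists_fin_two, or_assoc]
  rw [det_mul_subm A rfl h (i1 hi) (m1 i) (i1 hj) (m1 j), det_psub A (i1 hi) (m1 i),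
    det_psub A (i1 hj) (m1 j), det_psub A i2 m2, hS, hS, hS, hS, hS]
  simp only [det_fin_one, det_fin_two, submatrix_apply, cons_val_zero, cons_val_one]
  ring

/-- The principal minor as a real number. -/
noncomputable def pm (α : Finset (Fin n)) : ℝ := (psub A α).det.re

variable {A}

theorem IsPMatrix.coe (h : IsPMatrix A) (α : Finset (Fin n)) : (psub A α).det = pm A α :=
  Complex.ext rfl (h α).1

theorem IsPMatrix.pos (h : IsPMatrix A) (α : Finset (Fin n)) : 0 < pm A α := (h α).2

theorem IsPMatrix.syl (hP : IsPMatrix A) {γ : Finset (Fin n)} {i j : Fin n} (hij : i ≠ j)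
    (hi : i ∉ γ) (hj : j ∉ γ) (h : (insert j γ).card = (insert i γ).card) :
    PosReal ((subm A (insert i γ) (insert j γ) rfl h).det *
      (subm A (insert j γ) (insert i γ) h rfl).det) ↔
      pm A γ * pm A (insert i (insert j γ)) < pm A (insert i γ) * pm A (insert j γ) := by
  rw [sylvester A (by rw [hP.coe]; exact_mod_cast (hP.pos γ).ne') hij hi hj, hP.coe, hP.coe,
    hP.coe, hP.coe, PosReal]
  simp

theorem IsPMatrix.strict_iff (hP : IsPMatrix A) : IsStrictGKK A ↔
    ∀ (γ : Finset (Fin n)) (i j : Fin n), i ≠ j → i ∉ γ → j ∉ γ →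
      pm A γ * pm A (insert i (insert j γ)) < pm A (insert i γ) * pm A (insert j γ) := by
  refine ⟨fun h γ i j hij hi hj => ?_, fun h => ⟨hP, fun α β hc h1 => ?_⟩⟩
  · have c : (insert j γ).card = (insert i γ).card := by
      rw [Finset.card_insert_of_notMem hi, Finset.card_insert_of_notMem hj]
    refine (hP.syl hij hi hj c).1 (h.2 _ _ c ?_)
    have e : insert i γ ∩ insert j γ = γ := by
      ext x
      simp only [Finset.mem_inter, Finset.mem_insert]
      exact ⟨fun ⟨a, b⟩ => a.elim (fun a => b.resolve_left fun b => hij (a.symm.trans b)) id,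
        fun a => ⟨Or.inr a, Or.inr a⟩⟩
    rw [e, Finset.card_insert_of_notMem hi, Nat.add_sub_cancel_left]
  · obtain ⟨i, hi, ei⟩ := Finset.exists_eq_insert_iff.2
      (⟨Finset.inter_subset_left, by omega⟩ : α ∩ β ⊆ α ∧ (α ∩ β).card + 1 = α.card)
    obtain ⟨j, hj, ej⟩ := Finset.exists_eq_insert_iff.2
      (⟨Finset.inter_subset_right, by omega⟩ : α ∩ β ⊆ β ∧ (α ∩ β).card + 1 = β.card)
    have hij : i ≠ j := fun e => hi (Finset.mem_inter.2
      ⟨ei ▸ Finset.mem_insert_self _ _, ej ▸ e ▸ Finset.mem_insert_self _ _⟩)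
    generalize α ∩ β = γ at hi hj ei ej
    subst ei ej
    exact (hP.syl hij hi hj hc).2 (h γ i j hij hi hj)

end Pool.Agent.Lib.MP_25f4f2_al
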