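import Pool.Agent.Lib.MP_25f4f2_al.Syl
import Pool.Agent.Lib.MP_25f4f2_al.Seq

/-! The spectrum of a strict GKK matrix lies in the wedge. -/

namespace Pool.Agent.Lib.MP_25f4f2_al

open Matrix Real

variable {n : ℕ} {A : Matrix (Fin n) (Fin n) ℂ} {μ : ℂ}

theorem mem_spec : μ ∈ spectrum ℂ A ↔ (μ • (1 : Matrix (Fin n) (Fin n) ℂ) - A).det = 0 := by
  rw [spectrum.mem_iff, Algebra.algebraMap_eq_smul_one, isUnit_iff_isUnit_det, isUnit_iff_ne_zero,
    not_not]

theorem det_expand (A : Matrix (Fin n) (Fin n) ℂ) (ζ : ℂ) :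
    (ζ • A + 1).det = ∑ α : Finset (Fin n), ζ ^ α.card * (psub A α).det := by
  refine ((detRowAlternating : (Fin n → ℂ) [⋀^Fin n]→ₗ[ℂ] ℂ).map_add_univ (ζ • A).row
    (1 : Matrix (Fin n) (Fin n) ℂ).row).trans (Finset.sum_congr rfl fun α _ => ?_)
  refine (det_piecewise_one_eq_submatrix_det (ζ • A) α).trans ?_
  rw [det_psub_val, ← Fintype.card_coe, ← det_smul]
  rfl

theorem IsStrictGKK.ls (h : IsStrictGKK A) : LS (pm A) :=
  ⟨h.1.pos, fun γ i j a b c => (h.1.strict_iff.1 h γ i j a b c).le⟩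

theorem IsStrictGKK.det_ne (h : IsStrictGKK A) (hn : 4 ≤ n) {r θ : ℝ} (hr : 0 < r)
    (hθ : ((n : ℝ) - 2) * |θ| ≤ π) : ((r * Complex.exp (θ * Complex.I)) • A + 1).det ≠ 0 := by
  intro e
  refine (h.ls.scale hr).ne (by rwa [Fintype.card_fin]) (by rwa [Fintype.card_fin]) fun ψ => ?_
  have e1 := congrArg (fun z => (Complex.exp (-ψ * Complex.I) * z).im) e
  rw [det_expand, mul_zero, Complex.zero_im, Finset.mul_sum, Complex.im_sum] at e1
  rw [← e1]
  refine Finset.sum_congr rfl fun α _ => ?_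
  have e2 : Complex.exp (-ψ * Complex.I) * ((r * Complex.exp (θ * Complex.I)) ^ α.card *
      (pm A α : ℂ)) = ((r ^ α.card * pm A α : ℝ) : ℂ) *
        Complex.exp (((α.card * θ - ψ : ℝ) : ℂ) * Complex.I) := by
    rw [mul_pow, ← Complex.exp_nat_mul, show ((α.card * θ - ψ : ℝ) : ℂ) * Complex.I =
      -ψ * Complex.I + α.card * (θ * Complex.I) by push_cast; ring, Complex.exp_add]
    push_cast
    ring
  rw [h.1.coe, e2, Complex.im_ofReal_mul, Complex.exp_ofReal_mul_I_im]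

theorem IsStrictGKK.wedge (h : IsStrictGKK A) (hn : 4 ≤ n) (hμ : μ ∈ spectrum ℂ A) :
    μ ≠ 0 ∧ |μ.arg| < π - π / (n - 2) := by
  rw [mem_spec] at hμ
  have h0 : μ ≠ 0 := by
    rintro rfl
    rw [zero_smul, zero_sub, det_neg, mul_eq_zero, or_iff_right (by simp)] at hμ
    have := det_psub A (α := Finset.univ) Function.injective_id (by simp)
    rw [submatrix_id_id, hμ, h.1.coe] at this
    exact (h.1.pos _).ne' (by exact_mod_cast this)
  refine ⟨h0, lt_of_not_ge fun h1 => ?_⟩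
  have n2 : (0 : ℝ) < (n : ℝ) - 2 := by
    have : (4 : ℝ) ≤ n := by exact_mod_cast hn
    linarith
  have r0 := norm_pos_iff.2 h0
  obtain ⟨θ, a1, a2⟩ : ∃ θ : ℝ, |θ| = π - |μ.arg| ∧
      Complex.exp (θ * Complex.I) * Complex.exp (μ.arg * Complex.I) = -1 := by
    rcases le_total 0 μ.arg with s | s
    · refine ⟨π - μ.arg, by rw [abs_of_nonneg s, abs_of_nonneg (sub_nonneg.2 μ.arg_le_pi)], ?_⟩
      rw [← Complex.exp_add, ← Complex.exp_pi_mul_I]
      congr 1
      push_cast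
      ring
    · refine ⟨-π - μ.arg, by
        rw [abs_of_nonpos s, abs_of_nonpos (sub_nonpos.2 μ.neg_pi_lt_arg.le)]; ring, ?_⟩
      rw [← Complex.exp_add, ← Complex.exp_neg_pi_mul_I]
      congr 1
      push_cast
      ring
  refine h.det_ne hn (inv_pos.2 r0) (θ := θ) ?_ ?_
  · rw [mul_comm, ← le_div_iff₀ n2]
    linarith
  · have e : μ * ((‖μ‖⁻¹ : ℝ) * Complex.exp (θ * Complex.I)) = -1 := by
      have c0 : (‖μ‖ : ℂ) ≠ 0 := by exact_mod_cast r0.ne'
      nth_rw 1 [← Complex.norm_mul_exp_arg_mul_I μ]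
      rw [← a2]
      push_cast
      field_simp
    have e1 : μ • (((‖μ‖⁻¹ : ℝ) * Complex.exp (θ * Complex.I)) • A + 1) = μ • 1 - A := by
      rw [smul_add, smul_smul, e, neg_one_smul, neg_add_eq_sub]
    rwa [← e1, det_smul, mul_eq_zero, or_iff_right (pow_ne_zero _ h0)] at hμ

end Pool.Agent.Lib.MP_25f4f2_al
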